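import Pool.Agent.H98.AM.Targets

/-!
# AM modules B1, B2, B3: determinant and minors of the ring matrix
-/

set_option autoImplicit false

open Polynomial Matrix

noncomputable section

namespace Pool.Agent.H34.AM

open Pool.Agent.H98.AM

/-- tridiagonal matrix -/
def TM (z : ℂ) (α β : ℕ → ℂ) (i0 m : ℕ) : Matrix (Fin m) (Fin m) ℂ := fun i j =>
  if (i : ℕ) = j then z else if (i : ℕ) = j + 1 then -α (i0 + i) else
    if (j : ℕ) = i + 1 then -β (i0 + j) else 0

/-- its determinant -/
def ct (z : ℂ) (α β : ℕ → ℂ) (i0 : ℕ) : ℕ → ℂ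
  | 0 => 1
  | 1 => z
  | (m + 2) => z * ct z α β i0 (m + 1) - α (i0 + m + 1) * β (i0 + m + 1) * ct z α β i0 m

lemma det_row_two {n : ℕ} (A : Matrix (Fin (n + 1)) (Fin (n + 1)) ℂ) (i p q : Fin (n + 1))
    (hpq : p ≠ q) (h : ∀ j, j ≠ p → j ≠ q → A i j = 0) :
    A.det = (-1) ^ ((i : ℕ) + p) * A i p * (A.submatrix i.succAbove p.succAbove).det
      + (-1) ^ ((i : ℕ) + q) * A i q * (A.submatrix i.succAbove q.succAbove).det := by
  rw [Matrix.det_succ_row A i]
  refine Finset.sum_eq_add p q hpq ?_ (by simp) (by simp)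
  intro j _ hj
  rw [h j hj.1 hj.2]
  ring

lemma det_col_two {n : ℕ} (A : Matrix (Fin (n + 1)) (Fin (n + 1)) ℂ) (j p q : Fin (n + 1))
    (hpq : p ≠ q) (h : ∀ i, i ≠ p → i ≠ q → A i j = 0) :
    A.det = (-1) ^ ((p : ℕ) + j) * A p j * (A.submatrix p.succAbove j.succAbove).det
      + (-1) ^ ((q : ℕ) + j) * A q j * (A.submatrix q.succAbove j.succAbove).det := by
  rw [Matrix.det_succ_column A j]
  refine Finset.sum_eq_add p q hpq ?_ (by simp) (by simp)
  intro i _ hi
  rw [h i hi.1 hi.2]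
  ring

lemma det_col_one {n : ℕ} (A : Matrix (Fin (n + 1)) (Fin (n + 1)) ℂ) (j p : Fin (n + 1))
    (h : ∀ i, i ≠ p → A i j = 0) :
    A.det = (-1) ^ ((p : ℕ) + j) * A p j * (A.submatrix p.succAbove j.succAbove).det := by
  rw [Matrix.det_succ_column A j]
  refine Finset.sum_eq_single p ?_ (by simp)
  intro i _ hi
  rw [h i hi]
  ring

lemma det_TM (z : ℂ) (α β : ℕ → ℂ) (i0 : ℕ) : ∀ m, (TM z α β i0 m).det = ct z α β i0 m
  | 0 => by simp [ct]
  | 1 => by simp [ct, TM]
  | 2 => by
    rw [Matrix.det_fin_two]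
    simp only [TM, ct, Fin.val_zero, Fin.val_one]
    simp
    ring
  | (m + 3) => by
    set A := TM z α β i0 (m + 3) with hA
    have hlast : (Fin.last (m + 2) : Fin (m + 3)) ≠ (Fin.last (m + 1)).castSucc := by
      intro h
      have := congrArg Fin.val h
      simp at this
    rw [det_row_two A (Fin.last (m + 2)) (Fin.last (m + 2)) (Fin.last (m + 1)).castSucc hlast (by
      intro j h1 h2
      have e1 : (j : ℕ) ≠ m + 2 := fun h => h1 (Fin.ext h)
      have e2 : (j : ℕ) ≠ m + 1 := fun h => h2 (Fin.ext h)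
      have e3 := j.2
      rw [hA, TM]
      simp only [Fin.val_last]
      rw [if_neg (by omega), if_neg (by omega), if_neg (by omega)])]
    have h1 : A (Fin.last (m + 2)) (Fin.last (m + 2)) = z := by
      rw [hA, TM, if_pos rfl]
    have h2 : A (Fin.last (m + 2)) (Fin.last (m + 1)).castSucc = -α (i0 + (m + 1) + 1) := by
      rw [hA, TM]
      simp only [Fin.val_last, Fin.val_castSucc]
      rw [if_neg (by omega), if_pos trivial]
      rfl
    have h3 : A.submatrix (Fin.last (m + 2)).succAbove (Fin.last (m + 2)).succAbove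
        = TM z α β i0 (m + 2) := by
      ext i j
      rw [Fin.succAbove_last, Matrix.submatrix_apply, hA, TM, TM]
      rfl
    set B := A.submatrix (Fin.last (m + 2)).succAbove ((Fin.last (m + 1)).castSucc).succAbove
      with hB
    have e7 : ((-1 : ℂ)) ^ (((Fin.last (m + 1) : Fin (m + 2)) : ℕ) +
        ((Fin.last (m + 1) : Fin (m + 2)) : ℕ)) = 1 := by
      rw [← two_mul, pow_mul]
      simp
    have h4 : B.det = -β (i0 + (m + 1) + 1) * (TM z α β i0 (m + 1)).det := by
      have e3 : ((((Fin.last (m + 1)).castSucc).succAbove (Fin.last (m + 1)) :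
          Fin (m + 3)) : ℕ) = m + 2 := by
        rw [Fin.succAbove_castSucc_self]
        simp
      rw [det_col_one B (Fin.last (m + 1)) (Fin.last (m + 1)) (by
          intro i hi
          have e1 : (i : ℕ) ≠ m + 1 := fun h => hi (Fin.ext h)
          have e2 := i.2
          rw [hB, Matrix.submatrix_apply, Fin.succAbove_last, hA, TM]
          simp only [Fin.val_castSucc, e3]
          rw [if_neg (by omega), if_neg (by omega), if_neg (by omega)])]
      have e4 : B (Fin.last (m + 1)) (Fin.last (m + 1)) = -β (i0 + (m + 1) + 1) := by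
        rw [hB, Matrix.submatrix_apply, Fin.succAbove_last, hA, TM]
        simp only [Fin.val_castSucc, e3, Fin.val_last]
        rw [if_neg (by omega), if_neg (by omega), if_pos trivial]
        rfl
      have e5 : B.submatrix (Fin.last (m + 1)).succAbove (Fin.last (m + 1)).succAbove
            = TM z α β i0 (m + 1) := by
        ext i j
        rw [Matrix.submatrix_apply, hB, Matrix.submatrix_apply, Fin.succAbove_last,
            Fin.succAbove_last, hA, TM, TM]
        have e6 : ((((Fin.last (m + 1)).castSucc).succAbove j.castSucc : Fin (m + 3)) : ℕ)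
              = j := by
          rw [Fin.succAbove_of_castSucc_lt]
          · rfl
          · rw [Fin.lt_def]
            exact j.2
        simp only [e6, Fin.val_castSucc]
      rw [e4, e5, e7, one_mul]
    have h7 : ct z α β i0 (m + 3) = z * ct z α β i0 (m + 2)
        - α (i0 + (m + 1) + 1) * β (i0 + (m + 1) + 1) * ct z α β i0 (m + 1) := rfl
    rw [h1, h2, h3, h4, det_TM z α β i0 (m + 2), det_TM z α β i0 (m + 1), h7]
    have h5 : ((-1 : ℂ)) ^ (((Fin.last (m + 2) : Fin (m + 3)) : ℕ) +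
            ((Fin.last (m + 2) : Fin (m + 3)) : ℕ)) = 1 := by
      rw [← two_mul, pow_mul]
      simp
    have h6 : ((-1 : ℂ)) ^ (((Fin.last (m + 2) : Fin (m + 3)) : ℕ) +
            (((Fin.last (m + 1)).castSucc : Fin (m + 3)) : ℕ)) = -1 := by
      have : (((Fin.last (m + 2) : Fin (m + 3)) : ℕ) +
            (((Fin.last (m + 1)).castSucc : Fin (m + 3)) : ℕ)) = 2 * (m + 1) + 1 := by
        simp only [Fin.val_last, Fin.val_castSucc]
        ring
      rw [this, pow_succ, pow_mul]
      simp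
    rw [h5, h6]
    ring

/-- minor of the tridiagonal matrix: last row and first column removed, with a corner -/
lemma minor_corner (z : ℂ) (α β : ℕ → ℂ) (γ : ℂ) (n : ℕ)
    (C : Matrix (Fin (n + 2)) (Fin (n + 2)) ℂ)
    (hC : ∀ i j : Fin (n + 2), C i j = (if (i : ℕ) = j + 1 then z else
      if (i : ℕ) = j + 2 then -α i else if (j : ℕ) = i then -β (j + 1) else 0)
        + if (i : ℕ) = 0 ∧ (j : ℕ) = n + 1 then γ else 0) :
    (-1) ^ (n + 2) * C.det = ∏ i ∈ Finset.range (n + 2), β (i + 1) - γ * ct z α β 1 (n + 1) := by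
  have h0 : (0 : Fin (n + 2)) ≠ Fin.last (n + 1) := by
    intro h
    have := congrArg Fin.val h
    simp at this
  rw [det_col_two C (Fin.last (n + 1)) 0 (Fin.last (n + 1)) h0 (by
    intro i h1 h2
    have e1 : (i : ℕ) ≠ 0 := fun h => h1 (Fin.ext h)
    have e2 : (i : ℕ) ≠ n + 1 := fun h => h2 (Fin.ext h)
    have e3 := i.2
    rw [hC]
    simp only [Fin.val_last]
    rw [if_neg (by omega), if_neg (by omega), if_neg (by omega), if_neg (by omega)]
    ring)]
  have h1 : C 0 (Fin.last (n + 1)) = γ := by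
    rw [hC]
    simp
  have h2 : C (Fin.last (n + 1)) (Fin.last (n + 1)) = -β (n + 2) := by
    rw [hC]
    simp
  have h3 : C.submatrix (0 : Fin (n + 2)).succAbove (Fin.last (n + 1)).succAbove
      = TM z α β 1 (n + 1) := by
    ext i j
    rw [Matrix.submatrix_apply, Fin.succAbove_zero, Fin.succAbove_last, hC, TM]
    simp only [Fin.val_succ, Fin.val_castSucc]
    have e1 := i.2
    have e2 := j.2
    rw [if_neg (show ¬ ((i : ℕ) + 1 = 0 ∧ (j : ℕ) = n + 1) by omega), add_zero]
    by_cases c1 : (i : ℕ) = j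
    · rw [if_pos (by omega), if_pos c1]
    · rw [if_neg (by omega), if_neg c1]
      by_cases c2 : (i : ℕ) = j + 1
      · rw [if_pos (by omega), if_pos c2, add_comm (i : ℕ) 1]
      · rw [if_neg (by omega), if_neg c2]
        by_cases c3 : (j : ℕ) = i + 1
        · rw [if_pos c3, if_pos c3, add_comm (j : ℕ) 1]
        · rw [if_neg c3, if_neg c3]
  have h4 : (C.submatrix (Fin.last (n + 1)).succAbove (Fin.last (n + 1)).succAbove).det
      = ∏ i ∈ Finset.range (n + 1), -β (i + 1) := by
    rw [Matrix.det_of_isLowerTriangular]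
    · rw [Finset.prod_range]
      apply Finset.prod_congr rfl
      intro i _
      rw [Matrix.submatrix_apply, Fin.succAbove_last, hC]
      simp only [Fin.val_castSucc]
      rw [if_neg (by omega), if_neg (by omega), if_pos trivial, if_neg (by omega), add_zero]
    · intro i j hij
      have hij' : i < j := hij
      rw [Fin.lt_def] at hij'
      rw [Matrix.submatrix_apply, Fin.succAbove_last, hC]
      simp only [Fin.val_castSucc]
      have e2 := j.2
      rw [if_neg (by omega), if_neg (by omega), if_neg (by omega), if_neg (by omega), add_zero]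
  rw [h1, h2, h3, h4, det_TM, Finset.prod_neg, Finset.prod_range_succ (fun i => β (i + 1)) (n + 1)]
  simp only [Fin.val_zero, Fin.val_last, Finset.card_range, zero_add]
  have e1 : ((-1 : ℂ)) ^ (n + 2) * (-1) ^ (n + 1) = -1 := by
    rw [← pow_add, show n + 2 + (n + 1) = 2 * (n + 1) + 1 by ring, pow_succ, pow_mul]
    simp
  have e2 : ((-1 : ℂ)) ^ (n + 1 + (n + 1)) = 1 := by
    rw [← two_mul, pow_mul]
    simp
  rw [e2]
  linear_combination (γ * ct z α β 1 (n + 1) - β (n + 2) * ∏ i ∈ Finset.range (n + 1), β (i + 1)) * e1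

lemma det_add_single {n : ℕ} (A : Matrix (Fin n) (Fin n) ℂ) (i j : Fin n) (c : ℂ) :
    (A + Matrix.single i j c).det = A.det + c * A.adjugate j i := by
  have h1 : A + Matrix.single i j c = A.updateRow i (A i + c • Pi.single j 1) := by
    ext k l
    by_cases hk : k = i
    · subst hk
      rw [Matrix.updateRow_self, Matrix.add_apply, Pi.add_apply, Pi.smul_apply]
      by_cases hl : l = j
      · subst hl
        simp
      · rw [Matrix.single_apply_of_col_ne (hj := fun h => hl h.symm), Pi.single_eq_of_ne hl]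
        simp
    · rw [Matrix.updateRow_ne hk, Matrix.add_apply,
        Matrix.single_apply_of_row_ne (hi := fun h => hk h.symm), add_zero]
  rw [h1, Matrix.det_updateRow_add, Matrix.det_updateRow_smul, Matrix.updateRow_eq_self,
    Matrix.adjugate_apply]

/-- the ring matrix on `Fin` -/
def RM (z : ℂ) (α β : ℕ → ℂ) (n : ℕ) : Matrix (Fin (n + 3)) (Fin (n + 3)) ℂ :=
  TM z α β 0 (n + 3) + Matrix.single 0 (Fin.last (n + 2)) (-α 0)
    + Matrix.single (Fin.last (n + 2)) 0 (-β 0)

lemma adj_T (z : ℂ) (α β : ℕ → ℂ) (n : ℕ) :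
    (TM z α β 0 (n + 3)).adjugate (Fin.last (n + 2)) 0 = ∏ i ∈ Finset.range (n + 2), α (i + 1) := by
  rw [Matrix.adjugate_fin_succ_eq_det_submatrix, Fin.succAbove_zero, Fin.succAbove_last,
    Matrix.det_of_isUpperTriangular]
  · have h1 : ∀ i : Fin (n + 2), (TM z α β 0 (n + 3)).submatrix Fin.succ Fin.castSucc i i
        = -α (i + 1) := by
      intro i
      rw [Matrix.submatrix_apply, TM]
      simp only [Fin.val_succ, Fin.val_castSucc, zero_add]
      rw [if_neg (by omega), if_pos trivial]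
    rw [Finset.prod_congr rfl (fun i _ => h1 i), Finset.prod_neg, Finset.prod_range]
    simp only [Finset.card_univ, Fintype.card_fin, Fin.val_zero, Fin.val_last, zero_add]
    rw [← mul_assoc, ← pow_add, ← two_mul, pow_mul]
    simp
  · intro i j hij
    have hij' : j < i := hij
    rw [Fin.lt_def] at hij'
    rw [Matrix.submatrix_apply, TM]
    simp only [Fin.val_succ, Fin.val_castSucc, zero_add]
    rw [if_neg (by omega), if_neg (by omega), if_neg (by omega)]

lemma single_val {n : ℕ} (i j k l : Fin n) (c : ℂ) :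
    Matrix.single i j c k l = if (k : ℕ) = i ∧ (l : ℕ) = j then c else 0 := by
  rw [Matrix.single_apply]
  by_cases h : i = k ∧ j = l
  · rw [if_pos h, if_pos ⟨by rw [h.1], by rw [h.2]⟩]
  · rw [if_neg h, if_neg]
    rintro ⟨h1, h2⟩
    exact h ⟨(Fin.ext h1).symm, (Fin.ext h2).symm⟩

/-- the corner minor -/
lemma adj_corner (z : ℂ) (α β : ℕ → ℂ) (n : ℕ) (δ : ℂ) :
    (TM z α β 0 (n + 3) + Matrix.single 0 (Fin.last (n + 2)) (-α 0)
      + Matrix.single (Fin.last (n + 2)) 0 δ).adjugate 0 (Fin.last (n + 2))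
      = ∏ i ∈ Finset.range (n + 2), β (i + 1) + α 0 * ct z α β 1 (n + 1) := by
  rw [Matrix.adjugate_fin_succ_eq_det_submatrix, Fin.succAbove_zero, Fin.succAbove_last]
  simp only [Fin.val_zero, Fin.val_last, add_zero]
  rw [minor_corner z α β (-α 0) n]
  · ring
  · intro i j
    rw [Matrix.submatrix_apply, Matrix.add_apply, Matrix.add_apply, single_val, single_val, TM]
    simp only [Fin.val_succ, Fin.val_castSucc, Fin.val_zero, Fin.val_last, zero_add]
    have e1 := i.2
    have e2 := j.2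
    rw [if_neg (show ¬ ((i : ℕ) = n + 2 ∧ (j : ℕ) + 1 = 0) by omega), add_zero]
    congr 1
    · by_cases c1 : (i : ℕ) = j + 1
      · rw [if_pos c1, if_pos c1]
      · rw [if_neg c1, if_neg c1]
        by_cases c2 : (i : ℕ) = j + 2
        · rw [if_pos (by omega), if_pos c2]
        · rw [if_neg (by omega), if_neg c2]
          by_cases c3 : (j : ℕ) = i
          · rw [if_pos (by omega), if_pos c3]
          · rw [if_neg (by omega), if_neg c3]
    · by_cases c1 : (i : ℕ) = 0 ∧ (j : ℕ) = n + 1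
      · rw [if_pos (by omega), if_pos c1]
      · rw [if_neg (by omega), if_neg c1]

lemma det_RM (z : ℂ) (α β : ℕ → ℂ) (n : ℕ) :
    (RM z α β n).det = ct z α β 0 (n + 3) - α 0 * β 0 * ct z α β 1 (n + 1)
      - α 0 * ∏ i ∈ Finset.range (n + 2), α (i + 1)
      - β 0 * ∏ i ∈ Finset.range (n + 2), β (i + 1) := by
  have h1 := adj_corner z α β n 0
  rw [Matrix.single_zero, add_zero] at h1
  rw [RM, det_add_single, det_add_single, h1, adj_T, det_TM]
  ring

lemma adj_RM_zero (z : ℂ) (α β : ℕ → ℂ) (n : ℕ) :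
    (RM z α β n).adjugate 0 0 = ct z α β 1 (n + 2) := by
  rw [Matrix.adjugate_fin_succ_eq_det_submatrix, Fin.succAbove_zero, ← det_TM]
  simp only [Fin.val_zero, add_zero, pow_zero, one_mul]
  congr 1
  ext i j
  rw [Matrix.submatrix_apply, RM, Matrix.add_apply, Matrix.add_apply, single_val, single_val, TM, TM]
  simp only [Fin.val_succ, Fin.val_zero, Fin.val_last, zero_add]
  rw [if_neg (show ¬ ((i : ℕ) + 1 = 0 ∧ (j : ℕ) + 1 = n + 2) by omega),
    if_neg (show ¬ ((i : ℕ) + 1 = n + 2 ∧ (j : ℕ) + 1 = 0) by omega), add_zero, add_zero]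
  by_cases c1 : (i : ℕ) = j
  · rw [if_pos (by omega), if_pos c1]
  · rw [if_neg (by omega), if_neg c1]
    by_cases c2 : (i : ℕ) = j + 1
    · rw [if_pos (by omega), if_pos c2, add_comm (i : ℕ) 1]
    · rw [if_neg (by omega), if_neg c2]
      by_cases c3 : (j : ℕ) = i + 1
      · rw [if_pos (by omega), if_pos c3, add_comm (j : ℕ) 1]
      · rw [if_neg (by omega), if_neg c3]

lemma adj_RM_last (z : ℂ) (α β : ℕ → ℂ) (n : ℕ) :
    (RM z α β n).adjugate (Fin.last (n + 2)) (Fin.last (n + 2)) = ct z α β 0 (n + 2) := by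
  rw [Matrix.adjugate_fin_succ_eq_det_submatrix, Fin.succAbove_last, ← det_TM]
  have h1 : ((-1 : ℂ)) ^ (((Fin.last (n + 2) : Fin (n + 3)) : ℕ) +
            ((Fin.last (n + 2) : Fin (n + 3)) : ℕ)) = 1 := by
    rw [← two_mul, pow_mul]
    simp
  rw [h1, one_mul]
  congr 1
  ext i j
  rw [Matrix.submatrix_apply, RM, Matrix.add_apply, Matrix.add_apply, single_val, single_val, TM, TM]
  simp only [Fin.val_castSucc, Fin.val_zero, Fin.val_last, zero_add]
  have e1 := i.2
  have e2 := j.2
  rw [if_neg (show ¬ ((i : ℕ) = 0 ∧ (j : ℕ) = n + 2) by omega),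
    if_neg (show ¬ ((i : ℕ) = n + 2 ∧ (j : ℕ) = 0) by omega), add_zero, add_zero]

lemma bmat_apply' (n : ℕ) (a : Fin (n + 3) → ℂ) (i j : Fin (n + 3)) :
    bmat (N := n + 3) a i j = (if j = i - 1 then a i else 0) +
      (if j = i + 1 then (starRingEnd ℂ) (a (i + 1)) else 0) := rfl

/-- the ring matrix -/
lemma bmat_eq' (n : ℕ) (a : Fin (n + 3) → ℂ) (z : ℂ) (i j : Fin (n + 3)) :
    (if i = j then z else 0) - ((if j = i - 1 then a i else 0) +
      (if j = i + 1 then (starRingEnd ℂ) (a (i + 1)) else 0))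
      = RM z (fun k => a (k : ZMod (n + 3))) (fun k => (starRingEnd ℂ) (a (k : ZMod (n + 3)))) n
          i j := by
  have hcast : ∀ k : Fin (n + 3), (((k : ℕ) : ZMod (n + 3)) : Fin (n + 3)) = k := by
    intro k
    exact Fin.cast_val_eq_self k
  have hp : ∀ k l : Fin (n + 3), k = l + 1 ↔ (k : ℕ) = l + 1 ∨ ((k : ℕ) = 0 ∧ (l : ℕ) = n + 2) := by
    intro k l
    rw [Fin.ext_iff, Fin.val_add_one]
    have h3 := k.2
    by_cases hl : l = Fin.last (n + 2)
    · rw [if_pos hl]
      have h4 : (l : ℕ) = n + 2 := by rw [hl]; rfl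
      omega
    · rw [if_neg hl]
      have : (l : ℕ) ≠ n + 2 := fun h => hl (Fin.ext h)
      omega
  have hm : (j = i - 1) ↔ (i = j + 1) := by
    constructor
    · intro h
      rw [h]
      exact (sub_add_cancel i 1).symm
    · intro h
      rw [h]
      exact (add_sub_cancel_right j 1).symm
  have hb : ((if j = i - 1 then a i else 0) + (if j = i + 1 then (starRingEnd ℂ) (a (i + 1)) else 0))
      = (if (i : ℕ) = j + 1 ∨ ((i : ℕ) = 0 ∧ (j : ℕ) = n + 2) then
      a (((i : ℕ) : ZMod (n + 3))) else 0) +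
      (if (j : ℕ) = i + 1 ∨ ((j : ℕ) = 0 ∧ (i : ℕ) = n + 2) then
      (starRingEnd ℂ) (a (((j : ℕ) : ZMod (n + 3)))) else 0) := by
    congr 1
    · by_cases h : j = i - 1
      · rw [if_pos h, if_pos ((hp i j).1 (hm.1 h)), hcast i]
      · rw [if_neg h, if_neg (fun h' => h (hm.2 ((hp i j).2 h')))]
    · by_cases h : j = i + 1
      · rw [if_pos h, if_pos ((hp j i).1 h), ← h, hcast j]
      · rw [if_neg h, if_neg (fun h' => h ((hp j i).2 h'))]
  rw [hb, RM, Matrix.add_apply, Matrix.add_apply, single_val, single_val, TM]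
  simp only [Fin.val_zero, Fin.val_last, zero_add]
  have h1 : (if i = j then z else 0) = if (i : ℕ) = j then z else 0 := by
    by_cases h : i = j
    · rw [if_pos h, if_pos (by rw [h])]
    · rw [if_neg h, if_neg (fun h' => h (Fin.ext h'))]
  rw [h1]
  have e1 := i.2
  have e2 := j.2
  by_cases c1 : (i : ℕ) = j
  · rw [if_pos c1, if_pos c1, if_neg (by omega), if_neg (by omega), if_neg (by omega),
      if_neg (by omega)]
    ring
  · rw [if_neg c1, if_neg c1]
    by_cases c2 : (i : ℕ) = j + 1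
    · rw [if_pos (Or.inl c2), if_pos c2, if_neg (by omega), if_neg (by omega), if_neg (by omega)]
      ring
    · rw [if_neg c2]
      by_cases c3 : (j : ℕ) = i + 1
      · rw [if_neg (by omega), if_pos (Or.inl c3), if_pos c3, if_neg (by omega), if_neg (by omega)]
        ring
      · rw [if_neg c3]
        by_cases c4 : (i : ℕ) = 0 ∧ (j : ℕ) = n + 2
        · rw [if_pos (Or.inr c4), if_neg (by omega), if_pos c4, if_neg (by omega), c4.1]
          ring
        · by_cases c5 : (i : ℕ) = n + 2 ∧ (j : ℕ) = 0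
          · rw [if_neg (by omega), if_pos (Or.inr ⟨c5.2, c5.1⟩), if_neg c4, if_pos c5, c5.2]
            ring
          · rw [if_neg (by omega), if_neg (by omega), if_neg c4, if_neg c5]
            ring

lemma bmat_eq (n : ℕ) (a : ZMod (n + 3) → ℂ) (z : ℂ) :
    z • (1 : Matrix (ZMod (n + 3)) (ZMod (n + 3)) ℂ) - bmat a
      = RM z (fun k => a (k : ZMod (n + 3))) (fun k => (starRingEnd ℂ) (a (k : ZMod (n + 3)))) n := by
  ext i j
  have h1 := bmat_eq' n a z i j
  have h2 : (z • (1 : Matrix (ZMod (n + 3)) (ZMod (n + 3)) ℂ)) i j = if i = j then z else 0 := by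
    rw [Matrix.smul_apply, Matrix.one_apply, smul_eq_mul, mul_ite, mul_one, mul_zero]
  rw [Matrix.sub_apply, h2]
  exact h1

/-- continuants -/
lemma ct_eq (n : ℕ) (a : ZMod (n + 3) → ℂ) (z : ℂ) (i0 : ℕ) : ∀ m,
    ct z (fun k => a (k : ZMod (n + 3))) (fun k => (starRingEnd ℂ) (a (k : ZMod (n + 3)))) i0 m
      = aeval z (cont (fun n' : ℤ => Complex.normSq (a n')) i0 m)
  | 0 => by simp [ct, cont]
  | 1 => by simp [ct, cont]
  | (m + 2) => by
    rw [ct, cont, ct_eq n a z i0 (m + 1), ct_eq n a z i0 m, map_sub, map_mul, map_mul, aeval_X,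
      aeval_C, Complex.mul_conj]
    have : (((i0 + m + 1 : ℕ) : ZMod (n + 3))) = (((i0 : ℤ) + m + 1 : ℤ) : ZMod (n + 3)) := by
      push_cast
      ring
    rw [this]
    rfl

theorem B1 : T_B1 := by
  intro s _ a z hs
  obtain ⟨n, rfl⟩ : ∃ n, s = n + 3 := ⟨s - 3, by omega⟩
  rw [bmat_eq n a z]
  have h1 := det_RM z (fun k => a (k : ZMod (n + 3)))
    (fun k => (starRingEnd ℂ) (a (k : ZMod (n + 3)))) n
  rw [ct_eq, ct_eq] at h1
  have hcast : ∀ k : Fin (n + 3), (((k : ℕ) : ZMod (n + 3)) : Fin (n + 3)) = k := by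
    intro k
    exact Fin.cast_val_eq_self k
  have h2 : ∏ k : ZMod (n + 3), a k = a 0 * ∏ i ∈ Finset.range (n + 2),
      a ((i + 1 : ℕ) : ZMod (n + 3)) := by
    have : ∏ k : ZMod (n + 3), a k = ∏ k : Fin (n + 3), a k := rfl
    rw [this, Fin.prod_univ_succ, Finset.prod_range]
    congr 1
    apply Finset.prod_congr rfl
    intro i _
    rw [← hcast i.succ]
    rfl
  have h3 : ∏ k : ZMod (n + 3), (starRingEnd ℂ) (a k) = (starRingEnd ℂ) (a 0) *
      ∏ i ∈ Finset.range (n + 2), (starRingEnd ℂ) (a ((i + 1 : ℕ) : ZMod (n + 3))) := by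
    rw [← map_prod, h2, map_mul, map_prod]
  rw [h2, h3]
  refine h1.trans ?_
  have h4 : (((0 : ℕ) : ZMod (n + 3))) = 0 := Nat.cast_zero
  have h5 : (n + 3) - 2 = n + 1 := by omega
  simp only [h4, h5, Complex.mul_conj, Nat.cast_zero, Nat.cast_one]

theorem B2 : T_B2 := by
  intro s _ a z hs
  obtain ⟨n, rfl⟩ : ∃ n, s = n + 3 := ⟨s - 3, by omega⟩
  rw [bmat_eq n a z]
  constructor
  · have h1 := adj_RM_zero z (fun k => a (k : ZMod (n + 3)))
      (fun k => (starRingEnd ℂ) (a (k : ZMod (n + 3)))) n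
    rw [ct_eq] at h1
    exact h1
  · have h1 := adj_RM_last z (fun k => a (k : ZMod (n + 3)))
      (fun k => (starRingEnd ℂ) (a (k : ZMod (n + 3)))) n
    rw [ct_eq] at h1
    have h2 : (-1 : Fin (n + 3)) = Fin.last (n + 2) :=
      (eq_neg_of_add_eq_zero_left (Fin.last_add_one (n + 2))).symm
    rw [← h2] at h1
    exact h1

theorem B3 : T_B3 := by
  intro s _ a z hs
  obtain ⟨n, rfl⟩ : ∃ n, s = n + 3 := ⟨s - 3, by omega⟩
  rw [bmat_eq n a z]
  have h1 := adj_corner z (fun k => a (k : ZMod (n + 3)))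
      (fun k => (starRingEnd ℂ) (a (k : ZMod (n + 3)))) n (-(starRingEnd ℂ) (a ((0 : ℕ) : ZMod (n + 3))))
  rw [ct_eq] at h1
  have h2 : (-1 : Fin (n + 3)) = Fin.last (n + 2) :=
    (eq_neg_of_add_eq_zero_left (Fin.last_add_one (n + 2))).symm
  change (RM z _ _ n).adjugate 0 (-1 : Fin (n + 3)) = _
  rw [h2, RM]
  refine h1.trans ?_
  have h4 : (((0 : ℕ) : ZMod (n + 3))) = 0 := Nat.cast_zero
  have h5 : (n + 3) - 2 = n + 1 := by omega
  have h6 : (n + 3) - 1 = n + 2 := by omega
  simp only [h4, h5, h6, Nat.cast_one]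
  rw [add_comm]

end Pool.Agent.H34.AM
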