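import Pool.Agent.H98.AM.Targets

/-!
# AM modules B4, B5: eigenbases of the ring operator
-/

set_option autoImplicit false

open Polynomial Matrix

noncomputable section

namespace Pool.Agent.H34.AM

open Pool.Agent.H98.AM

variable {N : ℕ} [NeZero N]

lemma bop_apply (a : ZMod N → ℂ) (f : Rg N) (n : ZMod N) :
    bop a f n = a n * f (n - 1) + (starRingEnd ℂ) (a (n + 1)) * f (n + 1) := rfl

lemma bop_symm (a : ZMod N → ℂ) : (bop a).IsSymmetric := by
  intro f g
  rw [PiLp.inner_apply, PiLp.inner_apply]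
  simp only [bop_apply, RCLike.inner_apply, map_add, map_mul, Complex.conj_conj, mul_add, add_mul,
    Finset.sum_add_distrib]
  have h1 : ∑ x, g x * (a (x + 1) * (starRingEnd ℂ) (f (x + 1)))
      = ∑ x, a x * g (x - 1) * (starRingEnd ℂ) (f x) := by
    rw [← Equiv.sum_comp (Equiv.subRight (1 : ZMod N))]
    apply Finset.sum_congr rfl
    intro n _
    simp only [Equiv.subRight_apply, sub_add_cancel]
    ring
  have h2 : ∑ x, g x * ((starRingEnd ℂ) (a x) * (starRingEnd ℂ) (f (x - 1)))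
      = ∑ x, (starRingEnd ℂ) (a (x + 1)) * g (x + 1) * (starRingEnd ℂ) (f x) := by
    rw [← Equiv.sum_comp (Equiv.addRight (1 : ZMod N))]
    apply Finset.sum_congr rfl
    intro n _
    simp only [Equiv.coe_addRight, add_sub_cancel_right]
    ring
  rw [h1, h2, add_comm]

/-- shifted and multiplied functions -/
lemma norm_shift (b : ZMod N → ℂ) (σ : Equiv.Perm (ZMod N)) (c : ℝ) (hc : 0 ≤ c)
    (hb : ∀ n, ‖b n‖ ≤ c) (f : Rg N) :
    ‖(WithLp.toLp 2 fun n => b n * f (σ n) : Rg N)‖ ≤ c * ‖f‖ := by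
  rw [EuclideanSpace.norm_eq, EuclideanSpace.norm_eq]
  have h1 : ∑ n, ‖(WithLp.toLp 2 fun n => b n * f (σ n) : Rg N) n‖ ^ 2
      ≤ c ^ 2 * ∑ n, ‖f n‖ ^ 2 := by
    rw [← Equiv.sum_comp σ (fun n => ‖f n‖ ^ 2), Finset.mul_sum]
    apply Finset.sum_le_sum
    intro n _
    show ‖b n * f (σ n)‖ ^ 2 ≤ _
    rw [norm_mul, mul_pow]
    have := pow_le_pow_left₀ (norm_nonneg _) (hb n) 2
    nlinarith [sq_nonneg ‖f (σ n)‖]
  calc Real.sqrt (∑ n, ‖(WithLp.toLp 2 fun n => b n * f (σ n) : Rg N) n‖ ^ 2)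
      ≤ Real.sqrt (c ^ 2 * ∑ n, ‖f n‖ ^ 2) := Real.sqrt_le_sqrt h1
    _ = c * Real.sqrt (∑ n, ‖f n‖ ^ 2) := by
      rw [Real.sqrt_mul (sq_nonneg c), Real.sqrt_sq hc]

lemma bop_norm (a : ZMod N → ℂ) (c : ℝ) (ha : ∀ n, ‖a n‖ ≤ c) (f : Rg N) :
    ‖bop a f‖ ≤ 2 * c * ‖f‖ := by
  have hc : 0 ≤ c := (norm_nonneg _).trans (ha 0)
  have h1 : bop a f = (WithLp.toLp 2 fun n => a n * f ((Equiv.subRight (1 : ZMod N)) n) : Rg N)
      + (WithLp.toLp 2 fun n => (starRingEnd ℂ) (a (n + 1)) * f ((Equiv.addRight (1 : ZMod N)) n) :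
        Rg N) := by
    ext n
    rfl
  rw [h1]
  have h2 := norm_shift a (Equiv.subRight (1 : ZMod N)) c hc ha f
  have h3 := norm_shift (fun n => (starRingEnd ℂ) (a (n + 1))) (Equiv.addRight (1 : ZMod N)) c hc
    (fun n => by rw [RCLike.norm_conj]; exact ha _) f
  refine (norm_add_le _ _).trans ?_
  linarith

theorem B4 : T_B4 := by
  intro N _ a
  constructor
  · have hn : Module.finrank ℂ (Rg N) = N := by
      rw [finrank_euclideanSpace, ZMod.card]
    refine ⟨(bop_symm a).eigenvectorBasis hn, (bop_symm a).eigenvalues hn, ?_⟩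
    intro i
    exact (bop_symm a).apply_eigenvectorBasis hn i
  · intro c hc
    refine ⟨bop_norm a c hc, ?_⟩
    intro ι _ u ev hev i
    have h1 := bop_norm a c hc (u i)
    rw [hev i, norm_smul, u.orthonormal.1 i, mul_one, mul_one, Complex.norm_real] at h1
    exact h1

/-- the matrix of an orthonormal basis -/
def PM {ι : Type} [Fintype ι] (u : OrthonormalBasis ι ℂ (Rg N)) (e : ZMod N ≃ ι) :
    Matrix (ZMod N) (ZMod N) ℂ := fun m k => u (e k) m

lemma PM_unit {ι : Type} [Fintype ι] (u : OrthonormalBasis ι ℂ (Rg N)) (e : ZMod N ≃ ι) :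
    (PM u e)ᴴ * PM u e = 1 := by
  classical
  ext k l
  rw [Matrix.mul_apply]
  have h1 := orthonormal_iff_ite.1 u.orthonormal (e k) (e l)
  rw [PiLp.inner_apply] at h1
  simp only [RCLike.inner_apply] at h1
  rw [Matrix.one_apply]
  have h2 : (if e k = e l then (1 : ℂ) else 0) = if k = l then 1 else 0 := by
    by_cases h : k = l
    · rw [if_pos h, if_pos (by rw [h])]
    · rw [if_neg h, if_neg (fun h' => h (e.injective h'))]
  rw [← h2, ← h1]
  apply Finset.sum_congr rfl
  intro m _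
  rw [Matrix.conjTranspose_apply, mul_comm]
  rfl

lemma bmat_mul {ι : Type} [Fintype ι] (a : ZMod N → ℂ) (u : OrthonormalBasis ι ℂ (Rg N))
    (ev : ι → ℝ) (h : IsEB (bop a) u ev) (e : ZMod N ≃ ι) :
    bmat a * PM u e = PM u e * Matrix.diagonal (fun k => ((ev (e k) : ℝ) : ℂ)) := by
  ext m k
  rw [Matrix.mul_diagonal, Matrix.mul_apply]
  have h1 : bop a (u (e k)) m = (ev (e k) : ℂ) * u (e k) m := by
    rw [h (e k)]
    rfl
  rw [bop_apply] at h1
  simp only [bmat, PM, add_mul, ite_mul, zero_mul, Finset.sum_add_distrib]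
  rw [Finset.sum_ite_eq' Finset.univ (m - 1), Finset.sum_ite_eq' Finset.univ (m + 1),
    if_pos (Finset.mem_univ _), if_pos (Finset.mem_univ _), h1]
  ring

lemma adj_unitary (P : Matrix (ZMod N) (ZMod N) ℂ) (Q D : Matrix (ZMod N) (ZMod N) ℂ)
    (h : Q * P = 1) : (P * D * Q).adjugate = P * D.adjugate * Q ∧ (P * D * Q).det = D.det := by
  have h' : P * Q = 1 := mul_eq_one_comm.1 h
  have hd : P.det * Q.det = 1 := by rw [← Matrix.det_mul, h', Matrix.det_one]
  have a1 : P.adjugate = P.det • Q := by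
    have h1 : P.adjugate * P * Q = P.adjugate := by rw [mul_assoc, h', mul_one]
    rw [← h1, Matrix.adjugate_mul, Matrix.smul_mul, one_mul]
  have a2 : Q.adjugate = Q.det • P := by
    have h1 : Q.adjugate * Q * P = Q.adjugate := by rw [mul_assoc, h, mul_one]
    rw [← h1, Matrix.adjugate_mul, Matrix.smul_mul, one_mul]
  constructor
  · rw [Matrix.adjugate_mul_distrib, Matrix.adjugate_mul_distrib, a1, a2, Matrix.smul_mul,
      Matrix.mul_smul, Matrix.mul_smul, smul_smul, mul_comm Q.det, hd, one_smul, mul_assoc]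
  · rw [Matrix.det_mul, Matrix.det_mul]
    linear_combination D.det * hd

theorem B5 : T_B5 := by
  intro N _ a ι _ _ u ev _ hev
  have hcard : Fintype.card (ZMod N) = Fintype.card ι := by
    have h1 := Module.finrank_eq_card_basis u.toBasis
    rw [finrank_euclideanSpace] at h1
    exact h1
  set e : ZMod N ≃ ι := Fintype.equivOfCardEq hcard with he
  have hPu := PM_unit u e
  have hPu' : PM u e * (PM u e)ᴴ = 1 := mul_eq_one_comm.1 hPu
  have key : ∀ z : ℂ, z • (1 : Matrix (ZMod N) (ZMod N) ℂ) - bmat a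
      = PM u e * Matrix.diagonal (fun k => z - ((ev (e k) : ℝ) : ℂ)) * (PM u e)ᴴ := by
    intro z
    have h1 : (z • (1 : Matrix (ZMod N) (ZMod N) ℂ) - bmat a) * PM u e
        = PM u e * Matrix.diagonal (fun k => z - ((ev (e k) : ℝ) : ℂ)) := by
      rw [sub_mul, bmat_mul a u ev hev e, Matrix.smul_mul, one_mul]
      ext m k
      rw [Matrix.sub_apply, Matrix.mul_diagonal, Matrix.mul_diagonal, Matrix.smul_apply,
        smul_eq_mul]
      ring
    rw [← h1, mul_assoc, hPu', mul_one]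
  constructor
  · intro z
    rw [key z, (adj_unitary _ _ _ hPu).2, Matrix.det_diagonal,
      Equiv.prod_comp e (fun i => z - ((ev i : ℝ) : ℂ))]
  · intro z m n
    rw [key z, (adj_unitary _ _ _ hPu).1, Matrix.adjugate_diagonal, Matrix.mul_apply,
      ← Equiv.sum_comp e]
    apply Finset.sum_congr rfl
    intro k _
    rw [Matrix.mul_diagonal, Matrix.conjTranspose_apply]
    have h1 : ∏ j ∈ Finset.univ.erase (e k), (z - ((ev j : ℝ) : ℂ))
        = ∏ j ∈ Finset.univ.erase k, (z - ((ev (e j) : ℝ) : ℂ)) := by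
      have h2 : (Finset.univ.erase (e k) : Finset ι) = (Finset.univ.erase k).map e.toEmbedding := by
        ext j
        simp only [Finset.mem_erase, Finset.mem_univ, and_true, Finset.mem_map,
          Equiv.coe_toEmbedding]
        constructor
        · intro h
          exact ⟨e.symm j, fun h' => h (by rw [← h', Equiv.apply_symm_apply]), by simp⟩
        · rintro ⟨j', h1, rfl⟩ h2
          exact h1 (e.injective h2)
      rw [h2, Finset.prod_map]
      rfl
    rw [h1]
    show u (e k) m * (starRingEnd ℂ) (u (e k) n) * _ = u (e k) m * _ * (starRingEnd ℂ) (u (e k) n)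
    ring

end Pool.Agent.H34.AM
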